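import Pool.Agent.Helper89.GP.GoalsA
import Pool.Agent.Helper89.GP.Basic
import Pool.Agent.Helper9.FR.PL

/-!
# SMO: the slab masses of a cone are log-concave (Prekopa-Leindler)
-/

namespace Pool.Agent.Helper33.GP

open Finset MeasureTheory Pool.Agent.Helper89.GP Filter

noncomputable section

variable {n : ℕ}

/-- The slab of the cone. -/
def Sl (R : Fin n → Fin n → Prop) (u v : Fin n) (s t : ℝ) : Set (Fin n → ℝ) :=
  {x : Fin n → ℝ | (∀ a, 0 < x a) ∧ (∀ a b, R a b → x a < x b) ∧ s ≤ x v - x u ∧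
    x v - x u ≤ t}

/-- The box. -/
def bx (n : ℕ) (T : ℝ) : Set (Fin n → ℝ) := {x | ∀ a, x a < T}

/-- The weight. -/
def wt (x : Fin n → ℝ) : ℝ := Real.exp (-⨆ a, x a)

theorem wt_meas : Measurable (wt : (Fin n → ℝ) → ℝ) := by
  unfold wt
  apply Real.measurable_exp.comp
  apply Measurable.neg
  exact Measurable.iSup fun a => measurable_pi_apply a

theorem bx_meas (T : ℝ) : MeasurableSet (bx n T) := by
  unfold bx
  rw [Set.ofPred_forall]
  exact MeasurableSet.iInter fun a => measurableSet_lt (measurable_pi_apply a) measurable_const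

theorem sl_meas (R : Fin n → Fin n → Prop) (u v : Fin n) (s t : ℝ) :
    MeasurableSet (Sl R u v s t) := by
  have h1 : MeasurableSet {x : Fin n → ℝ | ∀ a, 0 < x a} := by
    rw [Set.ofPred_forall]
    exact MeasurableSet.iInter fun a => measurableSet_lt measurable_const (measurable_pi_apply a)
  have h2 : MeasurableSet {x : Fin n → ℝ | ∀ a b, R a b → x a < x b} := by
    rw [Set.ofPred_forall]
    refine MeasurableSet.iInter fun a => ?_
    rw [Set.ofPred_forall]
    refine MeasurableSet.iInter fun b => ?_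
    by_cases hR : R a b
    · have h3 : {x : Fin n → ℝ | R a b → x a < x b} = {x | x a < x b} := by
        ext x; simp [hR]
      rw [h3]
      exact measurableSet_lt (measurable_pi_apply a) (measurable_pi_apply b)
    · have h3 : {x : Fin n → ℝ | R a b → x a < x b} = Set.univ := by
        ext x; simp [hR]
      rw [h3]
      exact MeasurableSet.univ
  have h3 : MeasurableSet {x : Fin n → ℝ | s ≤ x v - x u} :=
    measurableSet_le measurable_const ((measurable_pi_apply v).sub (measurable_pi_apply u))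
  have h4 : MeasurableSet {x : Fin n → ℝ | x v - x u ≤ t} :=
    measurableSet_le ((measurable_pi_apply v).sub (measurable_pi_apply u)) measurable_const
  have h5 : Sl R u v s t = {x : Fin n → ℝ | ∀ a, 0 < x a} ∩
      ({x : Fin n → ℝ | ∀ a b, R a b → x a < x b} ∩ ({x : Fin n → ℝ | s ≤ x v - x u} ∩
        {x : Fin n → ℝ | x v - x u ≤ t})) := rfl
  rw [h5]
  exact h1.inter (h2.inter (h3.inter h4))

theorem wt_nonneg (x : Fin n → ℝ) : 0 ≤ wt x := (Real.exp_pos _).le

theorem wt_pos (x : Fin n → ℝ) : 0 < wt x := Real.exp_pos _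

theorem wt_le_one {x : Fin n → ℝ} (u : Fin n) (h : ∀ a, 0 < x a) : wt x ≤ 1 := by
  unfold wt
  rw [Real.exp_le_one_iff]
  have h1 : x u ≤ ⨆ a, x a := le_ciSup (Set.finite_range x).bddAbove u
  have := h u
  linarith

theorem wt_combo (u : Fin n) (x y : Fin n → ℝ) {l : ℝ} (h0 : 0 < l) (h1 : l < 1) :
    wt x ^ (1 - l) * wt y ^ l ≤ wt (fun i => (1 - l) * x i + l * y i) := by
  unfold wt
  rw [← Real.exp_mul, ← Real.exp_mul, ← Real.exp_add]
  apply Real.exp_le_exp.2
  have : Nonempty (Fin n) := ⟨u⟩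
  have h2 : (⨆ a, ((1 - l) * x a + l * y a)) ≤ (1 - l) * (⨆ a, x a) + l * ⨆ a, y a := by
    apply ciSup_le
    intro a
    have h3 : x a ≤ ⨆ a, x a := le_ciSup (Set.finite_range x).bddAbove a
    have h4 : y a ≤ ⨆ a, y a := le_ciSup (Set.finite_range y).bddAbove a
    have h5 := mul_le_mul_of_nonneg_left h3 (sub_nonneg.2 h1.le)
    have h6 := mul_le_mul_of_nonneg_left h4 h0.le
    linarith
  nlinarith [h2]

/-- The truncated weight of a slab. -/
def ft (R : Fin n → Fin n → Prop) (u v : Fin n) (s t T : ℝ) : (Fin n → ℝ) → ℝ :=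
  (Sl R u v s t ∩ bx n T).indicator wt

theorem ft_meas (R : Fin n → Fin n → Prop) (u v : Fin n) (s t T : ℝ) :
    Measurable (ft R u v s t T) :=
  wt_meas.indicator ((sl_meas R u v s t).inter (bx_meas T))

theorem ft_bd (R : Fin n → Fin n → Prop) (u v : Fin n) (s t T : ℝ) (x : Fin n → ℝ) :
    0 ≤ ft R u v s t T x ∧ ft R u v s t T x ≤ 1 := by
  unfold ft
  by_cases h : x ∈ Sl R u v s t ∩ bx n T
  · rw [Set.indicator_of_mem h]
    exact ⟨wt_nonneg x, wt_le_one u h.1.1⟩
  · rw [Set.indicator_of_notMem h]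
    exact ⟨le_refl 0, zero_le_one⟩

theorem ft_supp (R : Fin n → Fin n → Prop) (u v : Fin n) (s t T : ℝ) (x : Fin n → ℝ)
    (h : ∃ i, T < |x i|) : ft R u v s t T x = 0 := by
  unfold ft
  apply Set.indicator_of_notMem
  rintro ⟨h1, h2⟩
  obtain ⟨i, hi⟩ := h
  have h3 : 0 < x i := h1.1 i
  have h4 : x i < T := h2 i
  rw [abs_of_pos h3] at hi
  linarith

theorem ft_combo (R : Fin n → Fin n → Prop) (u v : Fin n) (p q ε T : ℝ) {l : ℝ} (h0 : 0 < l)
    (h1 : l < 1) (x y : Fin n → ℝ) :
    ft R u v p (p + ε) T x ^ (1 - l) * ft R u v q (q + ε) T y ^ l ≤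
      ft R u v ((1 - l) * p + l * q) ((1 - l) * p + l * q + ε) T
        (fun i => (1 - l) * x i + l * y i) := by
  have hl : 0 < 1 - l := sub_pos.2 h1
  by_cases hx : x ∈ Sl R u v p (p + ε) ∩ bx n T
  · by_cases hy : y ∈ Sl R u v q (q + ε) ∩ bx n T
    · have hz : (fun i => (1 - l) * x i + l * y i) ∈
          Sl R u v ((1 - l) * p + l * q) ((1 - l) * p + l * q + ε) ∩ bx n T := by
        obtain ⟨⟨x1, x2, x3, x4⟩, x5⟩ := hx
        obtain ⟨⟨y1, y2, y3, y4⟩, y5⟩ := hy
        refine ⟨⟨?_, ?_, ?_, ?_⟩, ?_⟩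
        · intro a
          have := mul_pos hl (x1 a)
          have := mul_pos h0 (y1 a)
          show 0 < (1 - l) * x a + l * y a
          linarith
        · intro a b hab
          have := mul_lt_mul_of_pos_left (x2 a b hab) hl
          have := mul_lt_mul_of_pos_left (y2 a b hab) h0
          show (1 - l) * x a + l * y a < (1 - l) * x b + l * y b
          linarith
        · have h3 := mul_le_mul_of_nonneg_left x3 hl.le
          have h4 := mul_le_mul_of_nonneg_left y3 h0.le
          show (1 - l) * p + l * q ≤ ((1 - l) * x v + l * y v) - ((1 - l) * x u + l * y u)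
          nlinarith
        · have h3 := mul_le_mul_of_nonneg_left x4 hl.le
          have h4 := mul_le_mul_of_nonneg_left y4 h0.le
          show ((1 - l) * x v + l * y v) - ((1 - l) * x u + l * y u) ≤ (1 - l) * p + l * q + ε
          nlinarith
        · intro a
          have h3 := mul_lt_mul_of_pos_left (x5 a) hl
          have h4 := mul_lt_mul_of_pos_left (y5 a) h0
          show (1 - l) * x a + l * y a < T
          nlinarith
      unfold ft
      rw [Set.indicator_of_mem hx, Set.indicator_of_mem hy, Set.indicator_of_mem hz]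
      exact wt_combo u x y h0 h1
    · have h2 : ft R u v q (q + ε) T y = 0 := Set.indicator_of_notMem hy _
      rw [h2, Real.zero_rpow h0.ne', mul_zero]
      exact (ft_bd _ _ _ _ _ _ _).1
  · have h2 : ft R u v p (p + ε) T x = 0 := Set.indicator_of_notMem hx _
    rw [h2, Real.zero_rpow hl.ne', zero_mul]
    exact (ft_bd _ _ _ _ _ _ _).1

theorem ft_pl (R : Fin n → Fin n → Prop) (u v : Fin n) (p q ε T : ℝ) {l : ℝ} (h0 : 0 < l)
    (h1 : l < 1) :
    (∫ x, ft R u v p (p + ε) T x) ^ (1 - l) * (∫ x, ft R u v q (q + ε) T x) ^ l ≤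
      ∫ x, ft R u v ((1 - l) * p + l * q) ((1 - l) * p + l * q + ε) T x :=
  Pool.Agent.Helper9.FR.pl_all n _ _ _ l T 1 h0 h1 (ft_meas _ _ _ _ _ _) (ft_meas _ _ _ _ _ _)
    (ft_meas _ _ _ _ _ _) (ft_bd _ _ _ _ _ _) (ft_bd _ _ _ _ _ _) (ft_bd _ _ _ _ _ _)
    (fun x hx => ⟨ft_supp _ _ _ _ _ _ x hx, ft_supp _ _ _ _ _ _ x hx, ft_supp _ _ _ _ _ _ x hx⟩)
    (ft_combo R u v p q ε T h0 h1)

theorem ft_int (R : Fin n → Fin n → Prop) (u v : Fin n) (s t T : ℝ) :
    ∫ x, ft R u v s t T x = ∫ x in Sl R u v s t ∩ bx n T, wt x := by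
  unfold ft
  exact integral_indicator ((sl_meas R u v s t).inter (bx_meas T))

theorem gd_nonneg (R : Fin n → Fin n → Prop) (u v : Fin n) (t : ℝ) : 0 ≤ Gd R u v t := by
  unfold Gd
  split_ifs with h
  · apply mul_nonneg (Real.exp_pos _).le
    unfold Ff
    apply Finset.sum_nonneg
    intro k _
    have h1 : 0 ≤ bq R u v k := Pr_nonneg _
    positivity
  · apply mul_nonneg (Real.exp_pos _).le
    unfold Ff
    apply Finset.sum_nonneg
    intro k _
    have h1 : 0 ≤ bq R v u k := Pr_nonneg _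
    have h2 : 0 ≤ -t := by linarith [not_le.1 h]
    positivity

theorem sl_lint (hC : ConStmt) (R : Fin n → Fin n → Prop) (u v : Fin n) (s t : ℝ)
    (h : (LX R).Nonempty) (huv : u ≠ v) (hst : s ≤ t) :
    ∫⁻ x in Sl R u v s t, ENNReal.ofReal (wt x) =
      ENNReal.ofReal ((LX R).card * ∫ r in s..t, Gd R u v r) :=
  hC n R u v s t h huv hst

theorem sl_intble (hC : ConStmt) (R : Fin n → Fin n → Prop) (u v : Fin n) (s t : ℝ)
    (h : (LX R).Nonempty) (huv : u ≠ v) (hst : s ≤ t) :
    IntegrableOn wt (Sl R u v s t) := by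
  refine ⟨wt_meas.aestronglyMeasurable, ?_⟩
  rw [hasFiniteIntegral_iff_ofReal (Eventually.of_forall wt_nonneg), sl_lint hC R u v s t h huv hst]
  exact ENNReal.ofReal_lt_top

theorem sl_int (hC : ConStmt) (R : Fin n → Fin n → Prop) (u v : Fin n) (s t : ℝ)
    (h : (LX R).Nonempty) (huv : u ≠ v) (hst : s ≤ t) :
    ∫ x in Sl R u v s t, wt x = (LX R).card * ∫ r in s..t, Gd R u v r := by
  rw [integral_eq_lintegral_of_nonneg_ae (Eventually.of_forall wt_nonneg)
    wt_meas.aestronglyMeasurable, sl_lint hC R u v s t h huv hst, ENNReal.toReal_ofReal]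
  apply mul_nonneg (Nat.cast_nonneg _)
  exact intervalIntegral.integral_nonneg hst fun r _ => gd_nonneg R u v r

theorem ft_tendsto (hC : ConStmt) (R : Fin n → Fin n → Prop) (u v : Fin n) (s t : ℝ)
    (h : (LX R).Nonempty) (huv : u ≠ v) (hst : s ≤ t) :
    Tendsto (fun T : ℕ => ∫ x, ft R u v s t T x) atTop
      (nhds ((LX R).card * ∫ r in s..t, Gd R u v r)) := by
  rw [← sl_int hC R u v s t h huv hst]
  have h1 : Sl R u v s t = ⋃ T : ℕ, Sl R u v s t ∩ bx n T := by
    rw [← Set.inter_iUnion]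
    have h2 : (⋃ T : ℕ, bx n (T : ℝ)) = Set.univ := by
      rw [Set.eq_univ_iff_forall]
      intro x
      obtain ⟨T, hT⟩ := exists_nat_gt (⨆ a, x a)
      rw [Set.mem_iUnion]
      refine ⟨T, fun a => ?_⟩
      exact lt_of_le_of_lt (le_ciSup (Set.finite_range x).bddAbove a) hT
    rw [h2, Set.inter_univ]
  have h3 : (fun T : ℕ => ∫ x, ft R u v s t T x) =
      fun T : ℕ => ∫ x in Sl R u v s t ∩ bx n T, wt x := by
    funext T
    exact ft_int R u v s t T
  rw [h3]
  have h4 := tendsto_setIntegral_of_monotone (μ := volume) (f := (wt : (Fin n → ℝ) → ℝ))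
    (s := fun T : ℕ => Sl R u v s t ∩ bx n T)
    (fun T => (sl_meas R u v s t).inter (bx_meas _)) (by
      intro T T' hT x hx
      refine ⟨hx.1, fun a => lt_of_lt_of_le (hx.2 a) ?_⟩
      exact_mod_cast hT) (by
      rw [← h1]
      exact sl_intble hC R u v s t h huv hst)
  rw [← h1] at h4
  exact h4

/-- SMO. -/
theorem smo (hC : ConStmt) : SmoStmt := by
  intro n R u v p q l ε h huv h0 h1 hε
  have hl : 0 < 1 - l := sub_pos.2 h1
  have hp : p ≤ p + ε := by linarith
  have hq : q ≤ q + ε := by linarith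
  have hm : (1 - l) * p + l * q ≤ (1 - l) * p + l * q + ε := by linarith
  have t1 := ft_tendsto hC R u v p (p + ε) h huv hp
  have t2 := ft_tendsto hC R u v q (q + ε) h huv hq
  have t3 := ft_tendsto hC R u v _ _ h huv hm
  have t4 := (t1.rpow_const (p := 1 - l) (Or.inr hl.le)).mul (t2.rpow_const (p := l) (Or.inr h0.le))
  have h2 := le_of_tendsto_of_tendsto' t4 t3 fun T => ft_pl R u v p q ε T h0 h1
  have hN : (0 : ℝ) < (LX R).card := card_pos_real h
  have hP : 0 ≤ ∫ r in p..(p + ε), Gd R u v r :=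
    intervalIntegral.integral_nonneg hp fun r _ => gd_nonneg R u v r
  have hQ : 0 ≤ ∫ r in q..(q + ε), Gd R u v r :=
    intervalIntegral.integral_nonneg hq fun r _ => gd_nonneg R u v r
  rw [Real.mul_rpow hN.le hP, Real.mul_rpow hN.le hQ] at h2
  have h3 : ((LX R).card : ℝ) ^ (1 - l) * ((LX R).card : ℝ) ^ l = (LX R).card := by
    rw [← Real.rpow_add hN, sub_add_cancel, Real.rpow_one]
  have h4 : ((LX R).card : ℝ) * ((∫ r in p..(p + ε), Gd R u v r) ^ (1 - l) *
      (∫ r in q..(q + ε), Gd R u v r) ^ l) ≤ (LX R).card *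
      ∫ r in ((1 - l) * p + l * q)..((1 - l) * p + l * q + ε), Gd R u v r := by
    calc ((LX R).card : ℝ) * ((∫ r in p..(p + ε), Gd R u v r) ^ (1 - l) *
        (∫ r in q..(q + ε), Gd R u v r) ^ l) =
        (((LX R).card : ℝ) ^ (1 - l) * ((LX R).card : ℝ) ^ l) *
          ((∫ r in p..(p + ε), Gd R u v r) ^ (1 - l) *
        (∫ r in q..(q + ε), Gd R u v r) ^ l) := by rw [h3]
      _ = _ := by ring
      _ ≤ _ := h2
  exact le_of_mul_le_mul_left h4 hN

end

end Pool.Agent.Helper33.GP
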